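import Mathlib
import Pool.Agent.Run7.h142.JT.Defs

/-!
# Several Weil numbers in each of several CM fields: definitions (helper142)
-/

set_option autoImplicit false

namespace Pool.Agent.Run7.h142.TF

open NumberField Polynomial

/-- The deviation of the slopes of `x` from their mean: for an embedding `τ` of the field in the
algebraic closure of `ℚ_p` it is `2 ord_p (τ x) - a`, where `ord_p (p) = 1`. For a Weil number `x`
for `p ^ a` its values are `a (2 λ - 1)`, `λ` the slopes. -/
noncomputable def dev (p a : ℕ) [Fact p.Prime] {F : Type} [Field F] (x : F) :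
    (F →+* PadicAlgCl p) → ℝ :=
  fun τ => 2 * (-Real.logb p ‖τ x‖) - a

/-- `π k i`, `i : I k`, are Weil numbers for `p ^ a` in the CM field `E k`, and for each `k` their
deviations are linearly independent over `ℚ`. -/
structure IndependentSlopes (p a : ℕ) [Fact p.Prime] {κ : Type} {E : κ → Type}
    [∀ k, Field (E k)] [∀ k, NumberField (E k)] [∀ k, IsCMField (E k)] {I : κ → Type}
    (π : ∀ k, I k → E k) : Prop where
  weil : ∀ k i, π k i * IsCMField.complexConj (E k) (π k i) = (p : E k) ^ a
  indep : ∀ k, LinearIndependent ℚ fun i : I k => dev p a (π k i)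

end Pool.Agent.Run7.h142.TF
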