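import Mathlib
import Pool.Agent.Run7.h142.JT.Min
import Pool.Agent.Run7.h142.TF.VanishR
import Pool.Agent.Run7.h142.TF.Defs
import Pool.Agent.R401.Iso
import Pool.Agent.Y1.TS.Angle

/-!
# Weil numbers with independent slopes in fields without rigid pairs have maximal angle rank
-/

set_option autoImplicit false
set_option linter.unusedSectionVars false

namespace Pool.Agent.Run7.h142.TF

open NumberField Module Polynomial Pool.Agent.H204R3.CM Pool.Agent.H194R3.CM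
  Pool.Agent.H977R3.CM Pool.Agent.W527 Pool.Agent.Y1.CT Pool.Agent.Y1.TS Pool.Agent.Y137.MV
  Pool.Agent.Run7.h142.JT

variable {p : ℕ} [Fact p.Prime] {a : ℕ} {κ : Type} [Fintype κ] {E : κ → Type}
  [∀ k, Field (E k)] [∀ k, NumberField (E k)] [∀ k, IsCMField (E k)] {I : κ → Type}
  [∀ k, Fintype (I k)] {π : ∀ k, I k → E k}

/-- The deviation at a complex embedding. -/
noncomputable def ww (ν : PadicAlgCl p ≃+* ℂ) (a : ℕ) {F : Type} [Field F] (x : F)
    (φ : F →+* ℂ) : ℝ := 2 * (-(lg ν (φ x))) - a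

theorem ww_conj (ν : PadicAlgCl p ≃+* ℂ) {F : Type} [Field F] [NumberField F] [IsCMField F]
    {x : F} (hx : x * IsCMField.complexConj F x = (p : F) ^ a) (φ : F →+* ℂ) :
    ww ν a x (ComplexEmbedding.conjugate φ) = - ww ν a x φ := by
  have hp0 : (p : F) ≠ 0 := Nat.cast_ne_zero.2 (Fact.out : p.Prime).ne_zero
  have hx0 : x ≠ 0 := by
    intro h0
    rw [h0, zero_mul] at hx
    exact pow_ne_zero a hp0 hx.symm
  have h4 := congrArg φ hx
  rw [map_mul, IsCMField.complexEmbedding_complexConj, map_pow, map_natCast] at h4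
  have h5 := congrArg (lg ν) h4
  rw [lg_mul ((_root_.map_ne_zero φ).2 hx0)
    ((_root_.map_ne_zero (starRingEnd ℂ)).2 ((_root_.map_ne_zero φ).2 hx0)), lg_pow, lg_p] at h5
  unfold ww
  rw [ComplexEmbedding.conjugate_coe_eq]
  linarith

theorem dev_eq (ν : PadicAlgCl p ≃+* ℂ) {F : Type} [Field F] (x : F) (τ : F →+* PadicAlgCl p) :
    dev p a x τ = ww ν a x ((ν : PadicAlgCl p →+* ℂ).comp τ) := by
  unfold dev ww lg
  have : ν.symm (((ν : PadicAlgCl p →+* ℂ).comp τ) x) = τ x := ν.symm_apply_apply _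
  rw [this]

theorem angle_of_indep (hE : NoRigidPairs E) (hπ : IndependentSlopes p a π) :
    MaximalAngleRank (F := Fam E I) (p ^ a) (fun x : Σ k, I k => π x.1 x.2) := by
  classical
  obtain ⟨ν⟩ := Pool.Agent.R401.Iso.exists_iso p
  intro r n hrel
  have hp0 : ∀ k, (p : E k) ≠ 0 := fun k => Nat.cast_ne_zero.2 (Fact.out : p.Prime).ne_zero
  have hπ0 : ∀ k i, π k i ≠ 0 := by
    intro k i h0
    have h1 := hπ.weil k i
    rw [h0, zero_mul] at h1
    exact pow_ne_zero a (hp0 k) h1.symm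
  let Y : Type := Σ x : (Σ k, I k), (Fam E I x →+* ℂ)
  let inv : Y → Y := fun y => ⟨y.1, ComplexEmbedding.conjugate y.2⟩
  have hinv : ∀ y : Y, inv (inv y) = y := by
    rintro ⟨x, φ⟩
    simp only [inv, conj_conj']
  let u : (ℂ ≃+* ℂ) → Y → ℝ := fun σ y => ww ν a (π y.1.1 y.1.2) ((σ : ℂ →+* ℂ).comp y.2)
  have hu : ∀ σ y, u σ (inv y) = - u σ y := by
    rintro σ ⟨x, φ⟩
    change ww ν a (π x.1 x.2) ((σ : ℂ →+* ℂ).comp (ComplexEmbedding.conjugate φ)) = _
    rw [conj_move, ww_conj ν (hπ.weil x.1 x.2)]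
  -- the relation
  have hlog : ∀ σ : ℂ ≃+* ℂ, ∑ y : Y, (n y : ℝ) * u σ y = 2 * (r * a) - a * ∑ y : Y, (n y : ℝ) := by
    intro σ
    have h1 := congrArg (fun x => lg ν (σ x)) hrel
    simp only [map_prod, map_zpow₀, lg_zpow] at h1
    rw [lg_prod _ _ _ (fun y _ => (_root_.map_ne_zero σ).2 ((_root_.map_ne_zero _).2
      (hπ0 _ _)))] at h1
    have h2 : lg ν (σ (((p ^ a : ℕ) : ℂ))) = -a := by
      rw [map_natCast]
      push_cast
      rw [lg_pow, lg_p]
      ring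
    rw [h2] at h1
    have h3 : ∑ y : Y, (n y : ℝ) * u σ y =
        ∑ y : Y, (-(2 * ((n y : ℝ) * lg ν (σ (y.2 (π y.1.1 y.1.2))))) - a * (n y : ℝ)) := by
      refine Finset.sum_congr rfl fun y _ => ?_
      have h4 : u σ y = -(2 * lg ν (σ (y.2 (π y.1.1 y.1.2)))) - a := by
        change 2 * (-(lg ν (σ (y.2 (π y.1.1 y.1.2))))) - (a : ℝ) = _
        ring
      rw [h4]
      ring
    rw [h3, Finset.sum_sub_distrib, Finset.sum_neg_distrib, ← Finset.mul_sum, ← Finset.mul_sum, h1]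
    ring
  have hc0 : 2 * ((r : ℝ) * a) - a * ∑ y : Y, (n y : ℝ) = 0 := by
    have h1 := hlog (RingEquiv.refl ℂ)
    have h2 := hlog (starRingAut : ℂ ≃+* ℂ)
    have h3 : ∀ y : Y, u (starRingAut : ℂ ≃+* ℂ) y = - u (RingEquiv.refl ℂ) y := by
      rintro ⟨x, φ⟩
      change ww ν a (π x.1 x.2) (ComplexEmbedding.conjugate φ) = - ww ν a (π x.1 x.2) φ
      rw [ww_conj ν (hπ.weil x.1 x.2)]
    rw [← h1] at h2
    simp only [h3, mul_neg, Finset.sum_neg_distrib] at h2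
    linarith
  have hF : ∀ σ : ℂ ≃+* ℂ, ∑ y : Y, ((n y - n (inv y) : ℤ) : ℝ) * u σ y = 0 := by
    intro σ
    have h2 : ∑ y : Y, (n (inv y) : ℝ) * u σ y = ∑ y : Y, -((n y : ℝ) * u σ y) := by
      refine Finset.sum_nbij' inv inv (fun _ _ => Finset.mem_univ _)
        (fun _ _ => Finset.mem_univ _) (fun y _ => hinv y) (fun y _ => hinv y) (fun y _ => ?_)
      rw [hu]
      ring
    push_cast
    simp only [sub_mul, Finset.sum_sub_distrib]
    rw [h2, Finset.sum_neg_distrib, hlog, hc0]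
    ring
  obtain ⟨L, _, _, j, hj⟩ := exists_galois E
  let c : ∀ k, I k → (E k →+* L) → ℤ := fun k i φ =>
    n ⟨⟨k, i⟩, j.comp φ⟩ - n ⟨⟨k, i⟩, ComplexEmbedding.conjugate (j.comp φ)⟩
  have hc : ∀ k i φ, c k i (cbar φ) = - c k i φ := by
    intro k i φ
    simp only [c]
    rw [comp_cbar, conj_conj']
    ring
  let A : ∀ k, (E k →+* L) → (E k →+* L) → ℝ := fun k φ ψ =>
    ∑ i : I k, (c k i φ : ℝ) * ww ν a (π k i) (j.comp ψ)
  have hA : ∀ k φ ψ, A k φ ψ = 0 := by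
    intro k φ ψ
    refine vanishR (G := L ≃ₐ[ℚ] L) (fun k => E k →+* L) (fun k => cbar) (fun k x => cbar_ne x)
      (fun g k x => rfl) (fun p q h1 h2 => noRigid_L j hE p q h1 h2) A ?_ ?_ ?_ k φ ψ
      (MulAction.exists_smul_eq (L ≃ₐ[ℚ] L) φ ψ)
    · intro k x y
      change ∑ i : I k, (c k i (cbar x) : ℝ) * _ = -∑ i : I k, (c k i x : ℝ) * _
      rw [← Finset.sum_neg_distrib]
      refine Finset.sum_congr rfl fun i _ => ?_
      rw [hc]
      push_cast
      ring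
    · intro k x y
      change ∑ i : I k, _ * ww ν a (π k i) (j.comp (cbar y)) =
        -∑ i : I k, _ * ww ν a (π k i) (j.comp y)
      rw [← Finset.sum_neg_distrib]
      refine Finset.sum_congr rfl fun i _ => ?_
      rw [comp_cbar, ww_conj ν (hπ.weil k i)]
      ring
    · intro g
      obtain ⟨σ, hσ⟩ := exists_lift' j g
      have h1 := hF σ
      rw [← h1, Fintype.sum_sigma, Fintype.sum_sigma, Fintype.sum_sigma]
      refine Finset.sum_congr rfl fun k _ => ?_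
      change ∑ φ : E k →+* L, ∑ i : I k, (c k i φ : ℝ) * ww ν a (π k i) (j.comp (g • φ)) =
        ∑ i : I k, ∑ φ : E k →+* ℂ, ((n ⟨⟨k, i⟩, φ⟩ - n ⟨⟨k, i⟩, ComplexEmbedding.conjugate φ⟩ : ℤ) : ℝ) *
          ww ν a (π k i) ((σ : ℂ →+* ℂ).comp φ)
      rw [Finset.sum_comm]
      refine Finset.sum_congr rfl fun i _ => ?_
      refine Fintype.sum_equiv (embEquiv j (hj k)) _ _ fun φ => ?_
      change _ = ((n ⟨⟨k, i⟩, j.comp φ⟩ - n ⟨⟨k, i⟩, ComplexEmbedding.conjugate (j.comp φ)⟩ : ℤ) : ℝ) *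
          ww ν a (π k i) ((σ : ℂ →+* ℂ).comp (j.comp φ))
      rw [lifts_comp j hσ]
  rintro ⟨k, i⟩ φ
  change E k →+* ℂ at φ
  obtain ⟨φ, rfl⟩ := hj k φ
  have h1 := Fintype.linearIndependent_iff.1 (hπ.indep k) (fun i => ((c k i φ : ℤ) : ℚ)) (by
    funext τ
    obtain ⟨ψ, hψ⟩ := hj k ((ν : PadicAlgCl p →+* ℂ).comp τ)
    have h2 := hA k φ ψ
    rw [Finset.sum_apply]
    refine Eq.trans ?_ h2
    refine Finset.sum_congr rfl fun i _ => ?_
    rw [Pi.smul_apply, dev_eq ν, ← hψ, Rat.smul_def, Rat.cast_intCast]) i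
  have h2 : c k i φ = 0 := by exact_mod_cast h1
  exact sub_eq_zero.1 h2

end Pool.Agent.Run7.h142.TF
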