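import Mathlib
import Pool.Agent.Run7.h142.JT.Count

/-!
# The number of the linearly dependent tuples of weighted CM types (helper142)
-/

set_option autoImplicit false

namespace Pool.Agent.Run7.h142.TF

open NumberField Module Pool.Agent.H204R3.CM Pool.Agent.Run7.h142.JT

variable {F : Type} [Field F] [NumberField F]

open Classical in
/-- The CM types whose sign functions, multiplied by `m`, are in `U`. -/
noncomputable def typesInW (m : (F →+* ℂ) → ℚ) (U : Submodule ℚ ((F →+* ℂ) → ℚ)) :
    Finset (Set (F →+* ℂ)) :=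
  Finset.univ.filter fun Ψ => IsCMType Ψ ∧ m * sgnF Ψ ∈ U

theorem card_typesInW {m : (F →+* ℂ) → ℚ} (hm : ∀ φ, m φ ≠ 0)
    (U : Submodule ℚ ((F →+* ℂ) → ℚ)) {d : ℕ} (hU : finrank ℚ U ≤ d) :
    (typesInW m U).card ≤ 2 ^ d := by
  classical
  let U' : Submodule ℚ ((F →+* ℂ) → ℚ) := U.comap (LinearMap.mulLeft ℚ m)
  have hU' : finrank ℚ U' ≤ d := by
    refine le_trans (LinearMap.finrank_le_finrank_of_injective
      (f := (LinearMap.mulLeft ℚ m).restrict (p := U') (q := U) (fun x hx => hx)) ?_) hU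
    intro x y h
    have h1 := congrArg (Subtype.val : U → ((F →+* ℂ) → ℚ)) h
    apply Subtype.ext
    funext φ
    have h2 := congrFun h1 φ
    exact mul_left_cancel₀ (hm φ) h2
  refine le_trans ?_ (card_typesIn U' hU')
  refine Finset.card_le_card ?_
  intro Ψ hΨ
  simp only [typesInW, typesIn, Finset.mem_filter, Finset.mem_univ, true_and] at hΨ ⊢
  exact hΨ

/-- The number of the linearly dependent `r`-tuples of weighted CM types is at most the fraction
`(2 ^ r - 1) / 2 ^ g` of `(2 ^ g) ^ r`. -/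
theorem card_dependentW {g : ℕ} (hg : finrank ℚ F = 2 * g) (r : ℕ) :
    ∀ m : Fin r → (F →+* ℂ) → ℚ, (∀ a φ, m a φ ≠ 0) →
    {Φ : Fin r → Set (F →+* ℂ) | (∀ a, IsCMType (Φ a)) ∧
      ¬ LinearIndependent ℚ (fun a => m a * sgnF (Φ a))}.ncard * 2 ^ g ≤
        (2 ^ r - 1) * 2 ^ (g * r) := by
  classical
  induction r with
  | zero =>
    intro m hm
    have : {Φ : Fin 0 → Set (F →+* ℂ) | (∀ a, IsCMType (Φ a)) ∧
      ¬ LinearIndependent ℚ (fun a => m a * sgnF (Φ a))} = ∅ := by
      ext Φ
      simp only [Set.mem_ofPred_eq, Set.mem_empty_iff_false, iff_false, not_and, not_not]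
      intro _
      exact linearIndependent_empty_type
    rw [this]
    simp
  | succ r ih' =>
    intro m hm
    have ih := ih' (Fin.tail m) (fun a φ => hm a.succ φ)
    -- the two kinds of tuples
    let T : Finset (Fin r → Set (F →+* ℂ)) := Fintype.piFinset fun _ => types F
    let D : Finset (Fin r → Set (F →+* ℂ)) :=
      T.filter fun Φ => ¬ LinearIndependent ℚ (fun a => Fin.tail m a * sgnF (Φ a))
    have hD : (D : Set (Fin r → Set (F →+* ℂ))) = {Φ : Fin r → Set (F →+* ℂ) |
        (∀ a, IsCMType (Φ a)) ∧ ¬ LinearIndependent ℚ (fun a => Fin.tail m a * sgnF (Φ a))} := by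
      ext Φ
      simp [D, T, types]
    have hTc : T.card ≤ 2 ^ (g * r) := by
      rw [Fintype.card_piFinset, Finset.prod_const, Finset.card_univ, Fintype.card_fin, pow_mul]
      exact Nat.pow_le_pow_left (card_types hg) r
    let A : Finset (Σ _ : Fin r → Set (F →+* ℂ), Set (F →+* ℂ)) := D.sigma fun _ => types F
    let B : Finset (Σ _ : Fin r → Set (F →+* ℂ), Set (F →+* ℂ)) :=
      T.sigma fun Φ => typesInW (m 0)
        (Submodule.span ℚ (Set.range fun a => Fin.tail m a * sgnF (Φ a)))
    have hA : A.card ≤ D.card * 2 ^ g := by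
      rw [Finset.card_sigma, Finset.sum_const, smul_eq_mul]
      exact Nat.mul_le_mul_left _ (card_types hg)
    have hB : B.card ≤ 2 ^ (g * r) * 2 ^ r := by
      rw [Finset.card_sigma]
      calc _ ≤ ∑ _Φ ∈ T, 2 ^ r := by
            refine Finset.sum_le_sum fun Φ _ => card_typesInW (hm 0) _ ?_
            have := finrank_range_le_card (R := ℚ) (fun a => Fin.tail m a * sgnF (Φ a))
            rw [Fintype.card_fin] at this
            exact this
        _ ≤ _ := by
            rw [Finset.sum_const, smul_eq_mul]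
            exact Nat.mul_le_mul_right _ hTc
    have hsub : {Φ : Fin (r + 1) → Set (F →+* ℂ) | (∀ a, IsCMType (Φ a)) ∧
        ¬ LinearIndependent ℚ (fun a => m a * sgnF (Φ a))} ⊆
        (fun p : Σ _ : Fin r → Set (F →+* ℂ), Set (F →+* ℂ) =>
          (Fin.cons p.2 p.1 : Fin (r + 1) → Set (F →+* ℂ))) '' ((A ∪ B : Finset _) : Set _) := by
      rintro Φ ⟨h1, h2⟩
      refine ⟨⟨Fin.tail Φ, Φ 0⟩, ?_, Fin.cons_self_tail Φ⟩
      have e1 : (fun a => m a * sgnF (Φ a)) = Fin.cons (m 0 * sgnF (Φ 0))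
          (fun a => Fin.tail m a * sgnF (Fin.tail Φ a)) := by
        funext a
        refine Fin.cases ?_ (fun i => ?_) a
        · rw [Fin.cons_zero]
        · rw [Fin.cons_succ]
          rfl
      rw [e1, linearIndependent_finCons] at h2
      rw [Finset.coe_union]
      have hT : Fin.tail Φ ∈ T := by
        simp only [T, Fintype.mem_piFinset, types, Finset.mem_filter, Finset.mem_univ, true_and]
        exact fun a => h1 a.succ
      by_cases h3 : LinearIndependent ℚ (fun a => Fin.tail m a * sgnF (Fin.tail Φ a))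
      · right
        have h4 : m 0 * sgnF (Φ 0) ∈ Submodule.span ℚ
            (Set.range fun a => Fin.tail m a * sgnF (Fin.tail Φ a)) := by
          by_contra hcon
          exact h2 ⟨h3, hcon⟩
        simp only [B, Finset.coe_sigma, Set.mem_sigma_iff, Finset.mem_coe]
        exact ⟨hT, by simp [typesInW, h1 0, h4]⟩
      · left
        simp only [A, Finset.coe_sigma, Set.mem_sigma_iff, Finset.mem_coe]
        exact ⟨by simp [D, hT, h3], by simp [types, h1 0]⟩
    have hcard : {Φ : Fin (r + 1) → Set (F →+* ℂ) | (∀ a, IsCMType (Φ a)) ∧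
        ¬ LinearIndependent ℚ (fun a => m a * sgnF (Φ a))}.ncard ≤ A.card + B.card := by
      calc _ ≤ _ := Set.ncard_le_ncard hsub ((A ∪ B).finite_toSet.image _)
        _ ≤ _ := Set.ncard_image_le (A ∪ B).finite_toSet
        _ = (A ∪ B).card := Set.ncard_coe_finset _
        _ ≤ _ := Finset.card_union_le _ _
    have hDn : D.card * 2 ^ g ≤ (2 ^ r - 1) * 2 ^ (g * r) := by
      rw [← hD, Set.ncard_coe_finset] at ih
      exact ih
    calc _ ≤ (A.card + B.card) * 2 ^ g := Nat.mul_le_mul_right _ hcard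
      _ ≤ ((2 ^ r - 1) * 2 ^ (g * r) + 2 ^ (g * r) * 2 ^ r) * 2 ^ g :=
          Nat.mul_le_mul_right _ (Nat.add_le_add (hA.trans hDn) hB)
      _ = (2 ^ (r + 1) - 1) * 2 ^ (g * (r + 1)) := by
          have h1 : 1 ≤ 2 ^ r := Nat.one_le_two_pow
          obtain ⟨n, hn⟩ : ∃ n, 2 ^ r = n + 1 := ⟨2 ^ r - 1, by omega⟩
          have h2 : 2 ^ (r + 1) - 1 = 2 * n + 1 := by
            rw [pow_succ, hn]
            omega
          have h3 : 2 ^ (g * (r + 1)) = 2 ^ (g * r) * 2 ^ g := by rw [mul_add, mul_one, pow_add]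
          rw [h2, hn, Nat.add_sub_cancel, h3]
          ring

end Pool.Agent.Run7.h142.TF
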