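import Mathlib
import Pool.Agent.Run7.h142.JT.Min
import Pool.Agent.Y1.CT.UnrelDefs

/-!
# Numbers of small degree are unrelated to CM fields without rigid pairs (helper142)
-/

set_option autoImplicit false
set_option linter.unusedSectionVars false

namespace Pool.Agent.Run7.h142.TF

open NumberField Module IntermediateField Pool.Agent.H204R3.CM Pool.Agent.H977R3.CM
  Pool.Agent.TH170.MF Pool.Agent.Run7.h142.JT

variable {κ : Type} [Fintype κ] {E : κ → Type} [∀ k, Field (E k)] [∀ k, NumberField (E k)]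
  [∀ k, IsCMField (E k)]

theorem comp_symm {F : Type} [Field F] (τ : ℂ ≃+* ℂ) (φ : F →+* ℂ) :
    (τ : ℂ →+* ℂ).comp ((τ.symm : ℂ →+* ℂ).comp φ) = φ := by
  ext x
  simp

theorem symm_comp {F : Type} [Field F] (τ : ℂ ≃+* ℂ) (φ : F →+* ℂ) :
    (τ.symm : ℂ →+* ℂ).comp ((τ : ℂ →+* ℂ).comp φ) = φ := by
  ext x
  simp

theorem trans_comp {F : Type} [Field F] (τ σ : ℂ ≃+* ℂ) (φ : F →+* ℂ) :
    ((τ.trans σ : ℂ ≃+* ℂ) : ℂ →+* ℂ).comp φ = (σ : ℂ →+* ℂ).comp ((τ : ℂ →+* ℂ).comp φ) := by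
  ext x
  rfl

theorem star_comp {F : Type} [Field F] (φ : F →+* ℂ) :
    ((starRingAut : ℂ ≃+* ℂ) : ℂ →+* ℂ).comp φ = ComplexEmbedding.conjugate φ := by
  ext x
  rfl

theorem unrelatedTo_of_degree (hE : NoRigidPairs E) (k : κ) {α : ℂ} (hα : IsIntegral ℚ α)
    (hdeg : (minpoly ℚ α).natDegree < finrank ℚ (E k)) :
    Pool.Agent.Y1.CT.UnrelatedTo (E k) α := by
  classical
  intro n hn hinv
  by_contra hne
  have hfd : FiniteDimensional ℚ ℚ⟮α⟯ := adjoin.finiteDimensional hα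
  have hnf : NumberField ℚ⟮α⟯ := { to_charZero := inferInstance, to_finiteDimensional := hfd }
  let ι : ℚ⟮α⟯ →+* ℂ := algebraMap ℚ⟮α⟯ ℂ
  let X : Type := ℚ⟮α⟯ →+* ℂ
  have hcardX : Fintype.card X = (minpoly ℚ α).natDegree := by
    rw [← IntermediateField.adjoin.finrank hα]
    exact Embeddings.card ℚ⟮α⟯ ℂ
  choose τ hτ using fun x : X => exists_comp (F := ℚ⟮α⟯) x ι
  let N : X → ((E k →+* ℂ) → ℚ) := fun x φ => n ((τ x : ℂ →+* ℂ).comp φ)
  -- automorphisms fixing `α`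
  have hfix : ∀ σ : ℂ ≃+* ℂ, (σ : ℂ →+* ℂ).comp ι = ι → ∀ φ : E k →+* ℂ,
      n ((σ : ℂ →+* ℂ).comp φ) = n φ := by
    intro σ hσ φ
    refine hinv σ ⟨1, one_pos, ?_⟩ φ
    have h1 := RingHom.congr_fun hσ (AdjoinSimple.gen ℚ α)
    have h2 : ι (AdjoinSimple.gen ℚ α) = α := AdjoinSimple.algebraMap_gen ℚ α
    rw [RingHom.comp_apply, h2] at h1
    rw [pow_one]
    exact h1
  have hmain : ∀ (σ : ℂ ≃+* ℂ) (x : X), (σ : ℂ →+* ℂ).comp x = ι → ∀ φ : E k →+* ℂ,
      n ((σ : ℂ →+* ℂ).comp φ) = N x φ := by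
    intro σ x hσ φ
    have h1 := hfix ((τ x).symm.trans σ) (by
      have h2 := symm_comp (τ x) x
      rw [hτ x] at h2
      rw [trans_comp, h2, hσ]) ((τ x : ℂ →+* ℂ).comp φ)
    rw [trans_comp, symm_comp] at h1
    exact h1
  have hconj : ∀ (x : X) (φ : E k →+* ℂ), N (ComplexEmbedding.conjugate x) φ = - N x φ := by
    intro x φ
    rw [← hmain ((starRingAut : ℂ ≃+* ℂ).trans (τ x)) (ComplexEmbedding.conjugate x) (by
      rw [trans_comp, star_comp, conj_conj', hτ]) φ, trans_comp, star_comp, conj_move, hn]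
  have hodd : ∀ x φ, N x (ComplexEmbedding.conjugate φ) = - N x φ := by
    intro x φ
    change n ((τ x : ℂ →+* ℂ).comp (ComplexEmbedding.conjugate φ)) = _
    rw [conj_move, hn]
  have hN0 : ∀ x, N x ≠ 0 := by
    intro x h0
    apply hne
    funext φ
    have h1 := congrFun h0 (((τ x).symm : ℂ →+* ℂ).comp φ)
    change n ((τ x : ℂ →+* ℂ).comp (((τ x).symm : ℂ →+* ℂ).comp φ)) = 0 at h1
    rw [comp_symm] at h1
    exact h1
  have hfp : ∀ x : X, ComplexEmbedding.conjugate x ≠ x := by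
    intro x h0
    apply hN0 x
    funext φ
    have h1 := hconj x φ
    rw [h0] at h1
    simp only [Pi.zero_apply]
    linarith
  obtain ⟨T, hT⟩ := exists_transversal (c := fun x : X => ComplexEmbedding.conjugate x)
    conj_conj' hfp
  have hcard := card_transversal (c := fun x : X => ComplexEmbedding.conjugate x) conj_conj' hT
  let W : Submodule ℚ ((E k →+* ℂ) → ℚ) := Submodule.span ℚ (Set.range fun x : T => N x.1)
  have hNW : ∀ x, N x ∈ W := by
    intro x
    by_cases hx : x ∈ T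
    · exact Submodule.subset_span ⟨⟨x, hx⟩, rfl⟩
    · have hx' : ComplexEmbedding.conjugate x ∈ T := by
        by_contra hcon
        exact hx ((hT x).2 hcon)
      have h1 : N x = - N (ComplexEmbedding.conjugate x) := by
        funext φ
        rw [Pi.neg_apply, hconj, neg_neg]
      rw [h1]
      exact W.neg_mem (Submodule.subset_span ⟨⟨_, hx'⟩, rfl⟩)
  have hW0 : W ≠ ⊥ := by
    intro h0
    have h1 := hNW ι
    rw [h0, Submodule.mem_bot] at h1
    exact hN0 ι h1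
  have hst : IsStable W := by
    intro σ s hs
    let R : ((E k →+* ℂ) → ℚ) →ₗ[ℚ] ((E k →+* ℂ) → ℚ) :=
      LinearMap.funLeft ℚ ℚ fun φ : E k →+* ℂ => (σ : ℂ →+* ℂ).comp φ
    have h1 : W ≤ W.comap R := by
      refine Submodule.span_le.2 ?_
      rintro _ ⟨x, rfl⟩
      change R (N x.1) ∈ W
      have h2 : R (N x.1) = N (((σ.symm : ℂ →+* ℂ).comp x.1 : X)) := by
        funext φ
        change n ((τ x.1 : ℂ →+* ℂ).comp ((σ : ℂ →+* ℂ).comp φ)) = _
        rw [← hmain (σ.trans (τ x.1)) ((σ.symm : ℂ →+* ℂ).comp x.1) (by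
          rw [trans_comp, comp_symm, hτ]) φ, trans_comp]
      rw [h2]
      exact hNW _
    exact h1 hs
  have hoddW : IsOddSpace W := by
    intro s hs
    refine Submodule.span_induction (p := fun s _ => ∀ φ : E k →+* ℂ,
      s (ComplexEmbedding.conjugate φ) = - s φ) ?_ ?_ ?_ ?_ hs
    · rintro _ ⟨x, rfl⟩ φ
      exact hodd x.1 φ
    · intro φ
      simp
    · intro x y _ _ hx hy φ
      rw [Pi.add_apply, Pi.add_apply, hx, hy]
      ring
    · intro q x _ hx φ
      rw [Pi.smul_apply, Pi.smul_apply, hx, smul_neg]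
  have h1 := finrank_ge hE k hW0 hst hoddW
  have h2 : finrank ℚ W ≤ T.card := by
    have := finrank_range_le_card (R := ℚ) (fun x : T => N x.1)
    rw [Fintype.card_coe] at this
    exact this
  omega

end Pool.Agent.Run7.h142.TF
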