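import Mathlib
import Pool.Agent.Run7.h142.TF.Defs
import Pool.Agent.Y1.CT.TypeDefs
import Pool.Agent.Y1.CT.UnrelDefs

/-!
# Several Weil numbers in each of several CM fields: the statements (helper142)
-/

set_option autoImplicit false

namespace Pool.Agent.Run7.h142.TF

open NumberField Module Polynomial Pool.Agent.H204R3.CM Pool.Agent.Y1.CT
  Pool.Agent.Run7.h142.JT

/-- A property `P K q f` of fields `K i`, a number `q` and polynomials `f i`. -/
abbrev Prp : Type 1 := ∀ (I : Type) (K : I → Type) [∀ i, Field (K i)], ℕ → (I → ℤ[X]) → Prop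

/-- The property holds for all Weil numbers `π k i`, `i : I k`, for `p ^ a` in CM fields `E k`
without rigid pairs, if for each `k` the slope deviations of the `π k i` are linearly independent;
`f (k, i)` is any monic polynomial whose complex roots are conjugates of `π k i`. -/
def HoldsForIndependent (P : Prp) : Prop :=
  ∀ (p : ℕ) [Fact p.Prime] (a : ℕ) (κ : Type) [Fintype κ] (E : κ → Type) [∀ k, Field (E k)]
    [∀ k, NumberField (E k)] [∀ k, IsCMField (E k)] (I : κ → Type) [∀ k, Fintype (I k)]
    (π : ∀ k, I k → E k) (f : (Σ k, I k) → ℤ[X]), 0 < a → NoRigidPairs E →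
      IndependentSlopes p a π → (∀ x, IsPolyOf (π x.1 x.2) (f x)) →
        P (Σ k, I k) (Fam E I) (p ^ a) f

/-- Let `E` be a CM field of degree `2 g` without rigid pairs. The property holds for all families of
`r` Weil numbers which generate `E` and have the slope types `Φ i`, with the weights `M i`, for
all families `Φ` of `r` CM types with at most `(2 ^ r - 1) / 2 ^ g * 2 ^ (g r)` exceptions. -/
def HoldsForMostTypes (P : Prp) : Prop :=
  ∀ (p : ℕ) [Fact p.Prime] (ν : PadicAlgCl p ≃+* ℂ) (E : Type) [Field E] [NumberField E]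
    [IsCMField E] (g r : ℕ) (M : Fin r → (E →+* ℂ) → ℤ), finrank ℚ E = 2 * g →
    NoRigidPairs (fun _ : Unit => E) → (∀ i φ, M i φ ≠ 0) →
      {Φ : Fin r → Set (E →+* ℂ) | (∀ i, IsCMType (Φ i)) ∧
        ¬ ForAllTypes ν (fun _ : Fin r => E) M (P (Fin r) (fun _ => E)) Φ}.ncard * 2 ^ g ≤
          (2 ^ r - 1) * 2 ^ (g * r)

/-- Criteria: CM fields `E k` have no rigid pairs if for each `k` some prime divides the discriminant
of `E k` and its square does not divide the product of all discriminants; an algebraic number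
whose degree is less than the degree of `E k` is unrelated to `E k`, if there are no rigid
pairs. -/
def Criteria : Prop :=
  ∀ (κ : Type) [Fintype κ] (E : κ → Type) [∀ k, Field (E k)] [∀ k, NumberField (E k)]
    [∀ k, IsCMField (E k)],
    ((∀ k, ∃ ℓ : ℕ, ℓ.Prime ∧ (ℓ : ℤ) ∣ discr (E k) ∧ ¬ (ℓ : ℤ) ^ 2 ∣ ∏ l, discr (E l)) →
      NoRigidPairs E) ∧
    (NoRigidPairs E → ∀ (k : κ) (α : ℂ), IsIntegral ℚ α →
      (minpoly ℚ α).natDegree < finrank ℚ (E k) → UnrelatedTo (E k) α)

end Pool.Agent.Run7.h142.TF
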