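import Mathlib

/-!
# Real multiples of independent rational vectors (helper142)
-/

set_option autoImplicit false

namespace Pool.Agent.Run7.h142.TF

/-- Real multiples of independent rational vectors are independent over the rational numbers. -/
theorem linInd_scaled {ι X : Type} [Fintype ι] {v : ι → X → ℚ} (hv : LinearIndependent ℚ v)
    {c : ι → ℝ} (hc : ∀ i, c i ≠ 0) :
    LinearIndependent ℚ (fun i => fun x : X => c i * (v i x : ℝ)) := by
  classical
  rw [Fintype.linearIndependent_iff]
  intro q hq i₀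
  by_contra hne
  have h0 : (q i₀ : ℝ) * c i₀ ≠ 0 := mul_ne_zero (Rat.cast_ne_zero.2 hne) (hc i₀)
  obtain ⟨l, hl⟩ : ∃ l : Module.Dual ℚ ℝ, l ((q i₀ : ℝ) * c i₀) ≠ 0 := by
    by_contra hcon
    push Not at hcon
    exact h0 ((Module.forall_dual_apply_eq_zero_iff ℚ _).1 hcon)
  apply hl
  refine Fintype.linearIndependent_iff.1 hv (fun i => l ((q i : ℝ) * c i)) ?_ i₀
  funext x
  have h1 := congrArg l (congrFun hq x)
  rw [Finset.sum_apply] at h1 ⊢
  rw [map_sum, Pi.zero_apply, map_zero] at h1
  rw [Pi.zero_apply, ← h1]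
  refine Finset.sum_congr rfl fun i _ => ?_
  rw [Pi.smul_apply, smul_eq_mul, Pi.smul_apply]
  have h2 : q i • (c i * (v i x : ℝ)) = v i x • ((q i : ℝ) * c i) := by
    rw [Rat.smul_def, Rat.smul_def]
    ring
  rw [h2, map_smul, smul_eq_mul, mul_comm]

end Pool.Agent.Run7.h142.TF
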