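import Mathlib
import Pool.Agent.Run7.h142.TF.Defs
import Pool.Agent.Run7.h142.TF.CountW
import Pool.Agent.Run7.h142.TF.Scale
import Pool.Agent.Y1.CT.TypeDefs

/-!
# Weil numbers with given slope types have independent slopes for most types (helper142)
-/

set_option autoImplicit false
set_option linter.unusedSectionVars false

namespace Pool.Agent.Run7.h142.TF

open NumberField Module Pool.Agent.H204R3.CM Pool.Agent.Run7.h142.JT

/-- Weil numbers whose weighted sign functions are independent. -/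
theorem indepSlopes_of_types {p : ℕ} [Fact p.Prime] {ν : PadicAlgCl p ≃+* ℂ} {E : Type} [Field E]
    [NumberField E] [IsCMField E] {r : ℕ} {M : Fin r → (E →+* ℂ) → ℤ}
    {Φ : Fin r → Set (E →+* ℂ)}
    (hli : LinearIndependent ℚ fun i => (fun φ => (M i φ : ℚ)) * sgnF (Φ i)) {a : ℕ}
    {π : Fin r → E} (hπ : ∀ i, Pool.Agent.Y1.CT.HasType ν a (M i) (Φ i) (π i)) :
    IndependentSlopes p a (E := fun _ : Unit => E) (I := fun _ => Fin r) (fun _ i => π i) := by
  classical
  choose c hc hsl using fun i => (hπ i).slopes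
  refine ⟨fun _ i => (hπ i).weil, fun _ => ?_⟩
  have h3 := linInd_scaled hli hc
  rw [Fintype.linearIndependent_iff] at h3 ⊢
  intro q hq
  refine h3 q ?_
  funext φ
  have h4 := congrFun hq ((ν.symm : ℂ →+* PadicAlgCl p).comp φ)
  rw [Finset.sum_apply] at h4 ⊢
  refine Eq.trans ?_ h4
  refine Finset.sum_congr rfl fun i _ => ?_
  rw [Pi.smul_apply, Pi.smul_apply]
  congr 1
  have h5 := hsl i φ
  change _ = 2 * (- Real.logb p ‖ν.symm (φ (π i))‖) - (a : ℝ)
  rw [h5, Pi.mul_apply]
  unfold sgnF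
  split_ifs
  · push_cast
    ring
  · push_cast
    ring

/-- All but a proportion `(2 ^ r - 1) / 2 ^ g` of the families of `r` types have a property that
follows from the linear independence of the weighted sign functions. -/
theorem ncard_several_lin (E : Type) [Field E] [NumberField E] [IsCMField E] {g r : ℕ}
    (hg : finrank ℚ E = 2 * g) (M : Fin r → (E →+* ℂ) → ℤ) (hM : ∀ i φ, M i φ ≠ 0)
    (Q : (Fin r → Set (E →+* ℂ)) → Prop)
    (hQ : ∀ Φ : Fin r → Set (E →+* ℂ), (∀ i, IsCMType (Φ i)) →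
      LinearIndependent ℚ (fun i => (fun φ => (M i φ : ℚ)) * sgnF (Φ i)) → Q Φ) :
    {Φ : Fin r → Set (E →+* ℂ) | (∀ i, IsCMType (Φ i)) ∧ ¬ Q Φ}.ncard * 2 ^ g ≤
      (2 ^ r - 1) * 2 ^ (g * r) := by
  classical
  refine le_trans (Nat.mul_le_mul_right _ (Set.ncard_le_ncard ?_ (Set.toFinite _)))
    (card_dependentW (F := E) hg r (fun i φ => (M i φ : ℚ)) (fun i φ => Int.cast_ne_zero.2 (hM i φ)))
  rintro Φ ⟨h1, h2⟩
  exact ⟨h1, fun hli => h2 (hQ Φ h1 hli)⟩

end Pool.Agent.Run7.h142.TF
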