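import Mathlib
import Pool.Agent.Run7.h142.TF.Angle
import Pool.Agent.Run7.h142.TF.CountW
import Pool.Agent.Run7.h142.TF.Degree
import Pool.Agent.Run7.h142.JT.Disc
import Pool.Agent.Y1.CT.UnrelRel
import Pool.Agent.Run7.h142.TF.Props
import Pool.Agent.Run7.h142.TF.TypesInd

/-!
# Several Weil numbers in each of several CM fields: main lemmas (helper142)
-/

set_option autoImplicit false
set_option linter.unusedSectionVars false

namespace Pool.Agent.Run7.h142.TF

open NumberField Module Polynomial Pool.Agent.H204R3.CM Pool.Agent.H977R3.CM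
  Pool.Agent.TH170 Pool.Agent.Y1.CT Pool.Agent.Y137.MV Pool.Agent.Run7.h142.JT

section

variable {p : ℕ} [Fact p.Prime] {a : ℕ} {κ : Type} [Fintype κ] {E : κ → Type}
  [∀ k, Field (E k)] [∀ k, NumberField (E k)] [∀ k, IsCMField (E k)] {I : κ → Type}
  [∀ k, Fintype (I k)] {π : ∀ k, I k → E k}

theorem noRel_of_indep (hE : NoRigidPairs E) (hπ : IndependentSlopes p a π)
    {f : (Σ k, I k) → ℤ[X]} (hf : ∀ x, IsPolyOf (π x.1 x.2) (f x)) :
    NoRel f (p ^ a) (Pool.Agent.Y1.CT.Unrelated (Fam E I)) :=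
  ⟨fun x => (hf x).1, unrelated_one _, fun s hs ρ hρ =>
    exactPair_of_angle (K := Fam E I) (π := fun x : Σ k, I k => π x.1 x.2)
      (angle_of_indep hE hπ) (fun x => hπ.weil x.1 x.2) f hf s hs ρ hρ⟩

end

/-- The angle rank does not depend on the numbering. -/
theorem angle_reindex {ι ι' : Type} [Fintype ι] [Fintype ι'] (e : ι' ≃ ι) {F : ι → Type}
    [∀ i, Field (F i)] [∀ i, NumberField (F i)] {q : ℕ} {π : ∀ i, F i}
    (h : MaximalAngleRank (F := fun i' => F (e i')) q (fun i' => π (e i'))) :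
    MaximalAngleRank q π := by
  classical
  intro r n hrel i φ
  obtain ⟨i', rfl⟩ := e.surjective i
  refine h r (fun y => n ⟨e y.1, y.2⟩) ?_ i' φ
  rw [← hrel]
  exact Fintype.prod_equiv (Equiv.sigmaCongrLeft (β := fun i => (F i →+* ℂ)) e) _ _ fun y => rfl

theorem norm_root {p a : ℕ} {K : Type} [Field K] [NumberField K] [IsCMField K] {π : K}
    (hw : π * IsCMField.complexConj K π = (p : K) ^ a) {f : ℤ[X]} (hf : IsPolyOf π f) {z : ℂ}
    (hz : aeval z f = 0) : ‖z‖ ^ 2 = ((p ^ a : ℕ) : ℝ) := by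
  obtain ⟨φ, rfl⟩ := hf.2 z hz
  have h4 := congrArg φ hw
  rw [map_mul, IsCMField.complexEmbedding_complexConj, map_pow, map_natCast,
    Complex.mul_conj, Complex.normSq_eq_norm_sq] at h4
  push_cast
  exact_mod_cast h4

/-- Weil numbers whose weighted sign functions are independent have maximal angle rank. -/
theorem angle_of_types {p : ℕ} [Fact p.Prime] {ν : PadicAlgCl p ≃+* ℂ} {E : Type} [Field E]
    [NumberField E] [IsCMField E] {r : ℕ} (hE : NoRigidPairs (fun _ : Unit => E))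
    {M : Fin r → (E →+* ℂ) → ℤ} {Φ : Fin r → Set (E →+* ℂ)}
    (hli : LinearIndependent ℚ fun i => (fun φ => (M i φ : ℚ)) * sgnF (Φ i)) {a : ℕ}
    {π : Fin r → E} (hπ : ∀ i, Pool.Agent.Y1.CT.HasType ν a (M i) (Φ i) (π i)) :
    MaximalAngleRank (F := fun _ : Fin r => E) (p ^ a) π := by
  let e : (Σ _ : Unit, Fin r) ≃ Fin r :=
    { toFun := fun x => x.2
      invFun := fun i => ⟨(), i⟩
      left_inv := fun x => rfl
      right_inv := fun x => rfl }
  exact angle_reindex e (angle_of_indep hE (indepSlopes_of_types hli hπ))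

/-- For one field without rigid pairs: all but a proportion `(2 ^ r - 1) / 2 ^ g` of the families of
`r` slope types have a property that follows from the maximality of the angle rank. -/
theorem ncard_several_angle {p : ℕ} [Fact p.Prime] (ν : PadicAlgCl p ≃+* ℂ) (E : Type) [Field E]
    [NumberField E] [IsCMField E] {g r : ℕ} (hg : finrank ℚ E = 2 * g)
    (hE : NoRigidPairs (fun _ : Unit => E)) (M : Fin r → (E →+* ℂ) → ℤ) (hM : ∀ i φ, M i φ ≠ 0)
    (Q : (Fin r → Set (E →+* ℂ)) → Prop)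
    (hQ : ∀ Φ, (∀ (a : ℕ) (π : Fin r → E), 0 < a →
      (∀ i, Pool.Agent.Y1.CT.HasType ν a (M i) (Φ i) (π i)) →
        MaximalAngleRank (F := fun _ : Fin r => E) (p ^ a) π) → Q Φ) :
    {Φ : Fin r → Set (E →+* ℂ) | (∀ i, IsCMType (Φ i)) ∧ ¬ Q Φ}.ncard * 2 ^ g ≤
      (2 ^ r - 1) * 2 ^ (g * r) :=
  ncard_several_lin E hg M hM Q fun Φ _ hli =>
    hQ Φ fun _ _ _ hπ => angle_of_types hE hli hπ

/-- For one field without rigid pairs: all but a proportion `(2 ^ r - 1) / 2 ^ g` of the families of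
`r` slope types have a property that follows from the absence of relations. -/
theorem ncard_several_norm {p : ℕ} [Fact p.Prime] (ν : PadicAlgCl p ≃+* ℂ) (E : Type) [Field E]
    [NumberField E] [IsCMField E] {g r : ℕ} (hg : finrank ℚ E = 2 * g)
    (hE : NoRigidPairs (fun _ : Unit => E)) (M : Fin r → (E →+* ℂ) → ℤ) (hM : ∀ i φ, M i φ ≠ 0)
    (P : ℕ → (Fin r → ℤ[X]) → Prop)
    (hP : ∀ (Q : ℕ) (f : Fin r → ℤ[X]), 1 < Q →
      (∀ i (z : ℂ), aeval z (f i) = 0 → ‖z‖ ^ 2 = (Q : ℝ)) →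
      NoRel f Q (Pool.Agent.Y1.CT.Unrelated (fun _ : Fin r => E)) → P Q f) :
    {Φ : Fin r → Set (E →+* ℂ) | (∀ i, IsCMType (Φ i)) ∧
      ¬ ForAllTypes ν (fun _ : Fin r => E) M P Φ}.ncard * 2 ^ g ≤ (2 ^ r - 1) * 2 ^ (g * r) := by
  refine ncard_several_angle ν E hg hE M hM (ForAllTypes ν (fun _ : Fin r => E) M P) ?_
  intro Φ h a π f ha hπ hf
  have hw : ∀ i, π i * IsCMField.complexConj E (π i) = (p : E) ^ a := fun i => (hπ i).weil
  refine hP (p ^ a) f (Nat.one_lt_pow ha.ne' (Fact.out : p.Prime).one_lt)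
    (fun i z hz => norm_root (hw i) (hf i) hz)
    ⟨fun i => (hf i).1, unrelated_one _, fun s hs ρ hρ => ?_⟩
  exact exactPair_of_angle (K := fun _ : Fin r => E) (h a π ha hπ) hw f hf s hs ρ hρ

/-- A property that follows from the absence of relations (and the absolute values). -/
theorem holdsForIndependent {P : Prp} (hP : ∀ (I : Type) (K : I → Type) [∀ i, Field (K i)] (q : ℕ)
    (f : I → ℤ[X]), 1 < q → (∀ i (z : ℂ), aeval z (f i) = 0 → ‖z‖ ^ 2 = (q : ℝ)) →
      NoRel f q (Pool.Agent.Y1.CT.Unrelated K) → P I K q f) : HoldsForIndependent P := by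
  intro p _ a κ _ E _ _ _ I _ π f ha hE hπ hf
  exact hP _ _ _ _ (Nat.one_lt_pow ha.ne' (Fact.out : p.Prime).one_lt)
    (fun x z hz => norm_root (hπ.weil x.1 x.2) (hf x) hz) (noRel_of_indep hE hπ hf)

theorem holdsForMostTypes {P : Prp} (hP : ∀ (I : Type) (K : I → Type) [∀ i, Field (K i)] (q : ℕ)
    (f : I → ℤ[X]), 1 < q → (∀ i (z : ℂ), aeval z (f i) = 0 → ‖z‖ ^ 2 = (q : ℝ)) →
      NoRel f q (Pool.Agent.Y1.CT.Unrelated K) → P I K q f) : HoldsForMostTypes P := by
  intro p _ ν E _ _ _ g r M hg hE hM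
  exact ncard_several_norm ν E hg hE M hM _ fun Q f hQ hn hR => hP _ _ Q f hQ hn hR

theorem criteria : Criteria := by
  intro κ _ E _ _ _
  exact ⟨noRigidPairs_of_discr, fun hE k α hα hdeg => unrelatedTo_of_degree hE k hα hdeg⟩

end Pool.Agent.Run7.h142.TF
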