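import Mathlib
import Pool.Agent.H868R3.PoleExt

/-!
# The orders of the poles of zeta functions of abelian varieties (helper142)
-/

set_option autoImplicit false

namespace Pool.Agent.Run7.h142.TF

open Module Pool.Agent.H868R3.TwoOdd

/-- The formula of Tate for the orders of the poles of the zeta functions, at all integers `n` and
over all finite extensions (of degree `s`) of the field with `q = p ^ a` elements, of the abelian
varieties that are isogenous to products of powers of the abelian varieties belonging to the Weil
numbers `π i`: `V` is the first cohomology with the Frobenius endomorphism `F`, and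
`divisorProducts q F n` is the span of the products of `n` classes `y` in `⋀ ^ 2 V` with
`F y = q y`. -/
def PoleOrders (p a : ℕ) {I : Type} (K : I → Type) [∀ i, Field (K i)] (π : ∀ i, K i) : Prop :=
  ∀ (V : Type) [AddCommGroup V] [Module ℂ V] [FiniteDimensional ℂ V] (F : V →ₗ[ℂ] V),
    Submodule.span ℂ {v : V | ∃ i, ∃ σ : K i →+* ℂ, F v = σ (π i) • v} = ⊤ →
    ∀ s : ℕ, 0 < s → ∀ n : ℕ,
      meromorphicOrderAt (zeta (((p : ℝ) ^ a) ^ s) (F ^ s)) (n : ℂ) =
        ((- (finrank ℂ (divisorProducts ((p : ℂ) ^ a) F n) : ℤ) : ℤ) : WithTop ℤ)

end Pool.Agent.Run7.h142.TF
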