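import Mathlib
import Pool.Agent.Run7.h142.JT.Min
import Pool.Agent.Run7.h142.TF.VanishR

/-!
# Relations between the conjugates of independent odd functions are trivial (helper142)
-/

set_option autoImplicit false
set_option linter.unusedSectionVars false

namespace Pool.Agent.Run7.h142.TF

open NumberField Module Pool.Agent.H204R3.CM Pool.Agent.H194R3.CM
  Pool.Agent.W527 Pool.Agent.Run7.h142.JT

variable {κ : Type} [Fintype κ] {E : κ → Type}
  [∀ k, Field (E k)] [∀ k, NumberField (E k)] [∀ k, IsCMField (E k)] {I : κ → Type}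
  [∀ k, Fintype (I k)]

theorem trivial_indep (hE : NoRigidPairs E) (W : ∀ k, I k → (E k →+* ℂ) → ℝ)
    (hW : ∀ k i φ, W k i (ComplexEmbedding.conjugate φ) = - W k i φ)
    (hli : ∀ k, LinearIndependent ℚ (W k)) (c : ∀ k, I k → (E k →+* ℂ) → ℚ)
    (hc : ∀ k i φ, c k i (ComplexEmbedding.conjugate φ) = - c k i φ)
    (hrel : ∀ σ : ℂ ≃+* ℂ, ∑ k, ∑ i, ∑ φ : E k →+* ℂ,
      (c k i φ : ℝ) * W k i ((σ : ℂ →+* ℂ).comp φ) = 0) (k : κ) (i : I k) (φ : E k →+* ℂ) :
    c k i φ = 0 := by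
  classical
  obtain ⟨L, _, _, j, hj⟩ := exists_galois E
  let A : ∀ k, (E k →+* L) → (E k →+* L) → ℝ := fun k φ ψ =>
    ∑ i : I k, (c k i (j.comp φ) : ℝ) * W k i (j.comp ψ)
  have hA : ∀ k φ ψ, A k φ ψ = 0 := by
    intro k φ ψ
    refine vanishR (G := L ≃ₐ[ℚ] L) (fun k => E k →+* L) (fun k => cbar) (fun k x => cbar_ne x)
      (fun g k x => rfl) (fun p q h1 h2 => noRigid_L j hE p q h1 h2) A ?_ ?_ ?_ k φ ψ
      (MulAction.exists_smul_eq (L ≃ₐ[ℚ] L) φ ψ)
    · intro k x y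
      change ∑ i : I k, (c k i (j.comp (cbar x)) : ℝ) * _ =
        -∑ i : I k, (c k i (j.comp x) : ℝ) * _
      rw [← Finset.sum_neg_distrib]
      refine Finset.sum_congr rfl fun i _ => ?_
      rw [comp_cbar, hc]
      push_cast
      ring
    · intro k x y
      change ∑ i : I k, _ * W k i (j.comp (cbar y)) = -∑ i : I k, _ * W k i (j.comp y)
      rw [← Finset.sum_neg_distrib]
      refine Finset.sum_congr rfl fun i _ => ?_
      rw [comp_cbar, hW]
      ring
    · intro g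
      obtain ⟨σ, hσ⟩ := exists_lift' j g
      have h1 := hrel σ
      rw [← h1, Fintype.sum_sigma]
      refine Finset.sum_congr rfl fun k _ => ?_
      change ∑ φ : E k →+* L, ∑ i : I k, (c k i (j.comp φ) : ℝ) * W k i (j.comp (g • φ)) = _
      rw [Finset.sum_comm]
      refine Finset.sum_congr rfl fun i _ => ?_
      refine Fintype.sum_equiv (embEquiv j (hj k)) _ _ fun φ => ?_
      change _ = (c k i (j.comp φ) : ℝ) * W k i ((σ : ℂ →+* ℂ).comp (j.comp φ))
      rw [lifts_comp j hσ]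
  obtain ⟨φ, rfl⟩ := hj k φ
  refine Fintype.linearIndependent_iff.1 (hli k) (fun i => c k i (j.comp φ)) ?_ i
  funext ψ
  obtain ⟨ψ, rfl⟩ := hj k ψ
  have h2 := hA k φ ψ
  rw [Finset.sum_apply]
  refine Eq.trans ?_ h2
  refine Finset.sum_congr rfl fun i _ => ?_
  rw [Pi.smul_apply, Rat.smul_def]

end Pool.Agent.Run7.h142.TF
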