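import Mathlib
import Pool.Agent.Run7.h142.TF.ElemDefs
import Pool.Agent.Run7.h142.TF.Triv
import Pool.Agent.Run7.h142.TF.Scale
import Pool.Agent.TH170.GS.Rel

/-!
# The relations between the Frobenius eigenvalues of abelian varieties with independent slopes
(helper142)

Adapted from TH170.GS.Rel (helper170).
-/

set_option autoImplicit false
set_option linter.unusedSectionVars false
set_option linter.unusedVariables false

namespace Pool.Agent.Run7.h142.TF

open NumberField Finset Module Pool.Agent.W495.TA Pool.Agent.TH117 Pool.Agent.TH170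
  Pool.Agent.TH170.GS Pool.Agent.Run7.h142.JT

variable {p : ℕ} [Fact p.Prime] {ν : PadicAlgCl p ≃+* ℂ} {κ : Type} [Fintype κ] {E : κ → Type}
  [∀ k, Field (E k)] [∀ k, NumberField (E k)] [∀ k, IsCMField (E k)] {I : κ → Type}
  [∀ k, Fintype (I k)]

theorem sgnF_conj {F : Type} [Field F] {Φ : Set (F →+* ℂ)}
    (hΦ : Pool.Agent.H204R3.CM.IsCMType Φ) (φ : F →+* ℂ) :
    sgnF Φ (ComplexEmbedding.conjugate φ) = - sgnF Φ φ := by
  classical
  have h := hΦ φ
  unfold sgnF
  by_cases h1 : φ ∈ Φ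
  · rw [if_pos h1, if_neg (h.1 h1)]
  · have h2 : ComplexEmbedding.conjugate φ ∈ Φ := by
      by_contra h3
      exact h1 (h.2 h3)
    rw [if_neg h1, if_pos h2]
    norm_num

/-- All relations between the Frobenius eigenvalues of an abelian variety whose slope deviations
are independent are elementary. -/
theorem elementary_of_slopes (hE : NoRigidPairs E) {w : ∀ k, I k → (E k →+* ℂ) → ℚ}
    (hw : ∀ k i φ, w k i (ComplexEmbedding.conjugate φ) = - w k i φ)
    (hli : ∀ k, LinearIndependent ℚ (w k)) {Y : RedAV p ν} (hY : OfSlopes w Y) :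
    BL.HasElementaryRelations Y := by
  classical
  intro e he
  obtain ⟨b, hb, hY⟩ := hY
  let S : Y.X.I → Prop := fun l =>
    ∃ s : ℕ, 0 < s ∧ Y.π l ^ (2 * s) = ((p : (Y.X.factor l).E) ^ Y.a) ^ s
  have hY' : ∀ l, ¬ S l → ∃ (t : Σ k, I k) (θ : E t.1 →+* (Y.X.factor l).E) (x : E t.1) (s : ℕ),
      0 < s ∧ θ x = Y.π l ^ s ∧ ∀ φ : E t.1 →+* ℂ,
        2 * (- Real.logb p ‖ν.symm (φ x)‖) - s * Y.a = s * b t.1 t.2 * w t.1 t.2 φ := by
    intro l hl
    obtain ⟨k, i, θ, x, s, h⟩ := (hY l).resolve_left hl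
    exact ⟨⟨k, i⟩, θ, x, s, h⟩
  choose t θ x s hs hθ hsl using hY'
  let X : Type := Σ t : (Σ k, I k), (E t.1 →+* ℂ)
  let ε : X → ℝ := fun z => b z.1.1 z.1.2 * (w z.1.1 z.1.2 z.2 : ℝ)
  let inv : X → X := fun z => ⟨z.1, ComplexEmbedding.conjugate z.2⟩
  let mv : (ℂ ≃+* ℂ) → X → X := fun σ z => ⟨z.1, (σ : ℂ →+* ℂ).comp z.2⟩
  have hinv : ∀ z, inv (inv z) = z := by
    rintro ⟨i, φ⟩
    simp only [inv, conj_conj']
  have hε : ∀ z σ, ε (mv σ (inv z)) = - ε (mv σ z) := by
    rintro ⟨⟨k, i⟩, φ⟩ σ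
    change b k i * (w k i ((σ : ℂ →+* ℂ).comp (ComplexEmbedding.conjugate φ)) : ℝ) =
      - (b k i * (w k i ((σ : ℂ →+* ℂ).comp φ) : ℝ))
    rw [conj_move, hw]
    push_cast
    ring
  let F : BL.Emb Y → Option X := fun v =>
    if h : S v.1 then none else some ⟨t v.1 h, v.2.comp (θ v.1 h)⟩
  have hF1 : ∀ v, S v.1 → F v = none := fun v h => dif_pos h
  have hF2 : ∀ v (h : ¬ S v.1), F v = some ⟨t v.1 h, v.2.comp (θ v.1 h)⟩ := fun v h => dif_neg h
  have hFc : ∀ v z, F v = some z → F (conjE v) = some (inv z) := by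
    intro v z hz
    by_cases h : S v.1
    · rw [hF1 v h] at hz
      exact absurd hz (by simp)
    · rw [hF2 v h] at hz
      rw [← Option.some.inj hz, hF2 (conjE v) h]
      rfl
  -- the slopes
  have hdev0 : ∀ v, F v = none → ∀ σ, GS.dev Y σ v = 0 := by
    intro v hv σ
    have h : S v.1 := by
      by_contra h
      rw [hF2 v h] at hv
      exact absurd hv (by simp)
    have h1 := sum_dev_of_isRel (isRel_single v h) σ
    rw [sum_eq_single v] at h1
    · rwa [Pi.single_eq_same, Nat.cast_one, one_mul] at h1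
    · intro u _ hu
      rw [Pi.single_eq_of_ne hu, Nat.cast_zero, zero_mul]
    · intro h
      exact absurd (mem_univ _) h
  have hdev : ∀ v z, F v = some z → ∀ σ : ℂ ≃+* ℂ, GS.dev Y σ v = ε (mv σ z) := by
    intro v z hz σ
    by_cases h : S v.1
    · rw [hF1 v h] at hz
      exact absurd hz (by simp)
    · rw [hF2 v h] at hz
      rw [← Option.some.inj hz]
      have h1 := hsl v.1 h ((σ : ℂ →+* ℂ).comp (v.2.comp (θ v.1 h)))
      have h2 : ((σ : ℂ →+* ℂ).comp (v.2.comp (θ v.1 h))) (x v.1 h) =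
          σ (BL.eig Y v) ^ s v.1 h := by
        change σ (v.2 (θ v.1 h (x v.1 h))) = _
        rw [hθ, map_pow, map_pow]
        rfl
      rw [h2, map_pow, norm_pow, Real.logb_pow] at h1
      have hs0 : (s v.1 h : ℝ) ≠ 0 := Nat.cast_ne_zero.2 (hs v.1 h).ne'
      apply mul_left_cancel₀ hs0
      have h3 : (s v.1 h : ℝ) * GS.dev Y σ v =
          2 * (-(s v.1 h * Real.logb p ‖ν.symm (σ (BL.eig Y v))‖)) - s v.1 h * Y.a := by
        unfold GS.dev
        ring
      rw [h3, h1, mul_assoc]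
  -- the antisymmetric exponents
  let c : ∀ k, I k → (E k →+* ℂ) → ℚ := fun k i φ =>
    ∑ v : BL.Emb Y, (e v : ℚ) * ((if F v = some ⟨⟨k, i⟩, φ⟩ then 1 else 0) -
      (if F v = some ⟨⟨k, i⟩, ComplexEmbedding.conjugate φ⟩ then 1 else 0))
  have hc : ∀ k i φ, c k i (ComplexEmbedding.conjugate φ) = - c k i φ := by
    intro k i φ
    simp only [c]
    rw [conj_conj', ← sum_neg_distrib]
    exact sum_congr rfl fun v _ => by ring
  have hrel' : ∀ σ : ℂ ≃+* ℂ, ∑ k, ∑ i, ∑ φ : E k →+* ℂ, (c k i φ : ℝ) *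
      (fun k i φ => b k i * (w k i φ : ℝ) : ∀ k, I k → (E k →+* ℂ) → ℝ) k i
        ((σ : ℂ →+* ℂ).comp φ) = 0 := by
    intro σ
    have h1 : ∑ k, ∑ i, ∑ φ : E k →+* ℂ, (c k i φ : ℝ) *
        (fun k i φ => b k i * (w k i φ : ℝ) : ∀ k, I k → (E k →+* ℂ) → ℝ) k i
          ((σ : ℂ →+* ℂ).comp φ) =
        ∑ z : X, ∑ v : BL.Emb Y, (e v : ℝ) * (((if F v = some z then 1 else 0) -
          (if F v = some (inv z) then 1 else 0)) * ε (mv σ z)) := by
      rw [Fintype.sum_sigma, Fintype.sum_sigma]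
      refine sum_congr rfl fun k _ => sum_congr rfl fun i _ => sum_congr rfl fun φ _ => ?_
      simp only [c]
      push_cast
      rw [sum_mul]
      refine sum_congr rfl fun v _ => ?_
      simp only [ε, inv, mv]
      split_ifs <;> push_cast <;> ring
    rw [h1, sum_comm]
    have h2 : ∀ v : BL.Emb Y, ∑ z : X, (e v : ℝ) * (((if F v = some z then 1 else 0) -
          (if F v = some (inv z) then 1 else 0)) * ε (mv σ z)) =
        2 * ((e v : ℝ) * GS.dev Y σ v) := by
      intro v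
      rw [← mul_sum]
      rcases hv : F v with _ | z
      · rw [hdev0 v hv]
        simp
      · have h3 : ∀ z' : X, (((if some z = some z' then (1 : ℝ) else 0) -
            (if some z = some (inv z') then 1 else 0)) * ε (mv σ z')) =
            (if z = z' then ε (mv σ z') else 0) -
              (if inv z = z' then ε (mv σ z') else 0) := by
          intro z'
          have h4 : (z = inv z') ↔ (inv z = z') :=
            ⟨fun h => by rw [h, hinv], fun h => by rw [← h, hinv]⟩
          simp only [Option.some_inj, h4]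
          split_ifs <;> ring
        rw [sum_congr rfl fun z' _ => h3 z', sum_sub_distrib, sum_ite_eq univ z,
          sum_ite_eq univ (inv z), if_pos (mem_univ _), if_pos (mem_univ _), hdev v z hv σ, hε]
        ring
    rw [sum_congr rfl fun v _ => h2 v, ← mul_sum, sum_dev_of_isRel he, mul_zero]
  have h0 : ∀ k i φ, c k i φ = 0 := by
    refine trivial_indep hE (fun k i φ => b k i * (w k i φ : ℝ)) ?_ ?_ c hc hrel'
    · intro k i φ
      change b k i * (w k i (ComplexEmbedding.conjugate φ) : ℝ) = - (b k i * (w k i φ : ℝ))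
      rw [hw]
      push_cast
      ring
    · intro k
      exact linInd_scaled (hli k) (hb k)
  refine mem_of_symm _ F inv hinv ?_ ?_ ?_ ?_ (fun v => (e v : ℤ)) ?_
  · rintro ⟨i, φ⟩ h
    exact conj_ne φ (eq_of_heq (Sigma.mk.inj h).2)
  · intro v hv
    apply single_mem
    by_contra h
    have h1 := hF2 v h
    rw [hv] at h1
    exact absurd h1 (by simp)
  · intro v v' z hz hz'
    refine pair_mem v v' fun σ => ?_
    rw [hdev v z hz, hdev v' (inv z) hz', hε]
    ring
  · intro v z hz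
    exact ⟨conjE v, hFc v z hz⟩
  · rintro ⟨⟨k, i⟩, φ⟩
    have h1 := h0 k i φ
    simp only [c, mul_sub, mul_ite, mul_one, mul_zero, sum_sub_distrib] at h1
    have h2 := sub_eq_zero.1 h1
    have h3 : ((∑ v, (if F v = some ⟨⟨k, i⟩, φ⟩ then (e v : ℤ) else 0) : ℤ) : ℚ) =
        ((∑ v, (if F v = some (inv ⟨⟨k, i⟩, φ⟩) then (e v : ℤ) else 0) : ℤ) : ℚ) := by
      push_cast
      exact h2
    exact_mod_cast h3

end Pool.Agent.Run7.h142.TF
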